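import Pool.Agent.Lib.MP_6a92a8_co.H94.Example

/-!
# A connectoid whose end space is not the end space of a graph

The connectoid has the points `z n`, `b i`, `c j`, `x i j k` (`n, k ∈ ℕ`, `i ∈ B₁`, `j ∈ B₂`) and is
generated by the sets `{z n, z (n+1)}`, `{x i j k, x i j (k+1)}` and `{x i j 0, b i, c j, z n}`,
where `B₁` is the power set of `ℕ` and `B₂` the power set of `B₁`.
-/

set_option autoImplicit false

universe u

namespace Pool.Agent.Results.MP_6a92a8_co.NotGraphEndSpace

open Pool.Agent.MP_6a92a8_co.H94

/-- There is a connectoid whose end space is not homeomorphic to the end space of any undirected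
graph, on a vertex set of any cardinality. -/
theorem result :
    ∃ (S : Type) (c : Connectoid S), ∀ (V : Type u) (G : SimpleGraph V),
      IsEmpty (c.EndSpace ≃ₜ GraphEndSpace G) :=
  exists_connectoid_not_graph

end Pool.Agent.Results.MP_6a92a8_co.NotGraphEndSpace
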